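import Pool.Agent.Y8.SK.St

/-!
The barriers for the negative parts of the modes (`S_BAR2` of `Pool.Agent.Y8.SK.St`), adapted from
`Pool.Agent.Y781.EP.Pw`, `Pool.Agent.Y781.EP.Bar2`.
-/

open Set Filter Topology MeasureTheory

set_option autoImplicit false

namespace Pool.Agent.Y108.SK

open Pool.Agent.Y8.SK hiding dd_pos bb_pos bb_le bb_succ th_nonneg
open Pool.Agent.Y5.E (At Aw Ut Uw loc)
open Pool.Agent.Y5.F (vfk Yk Wk bar)
open Pool.Agent.Y6.S (Pe6)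
open Pool.Agent.Y8.EP (EE EE_pos dd Pp Pn zz th bb nb Cur Low Ub)

/-! ### Exponentials -/

section seq

variable {κ lam N : ℝ} {L C ℓ : ℕ → ℝ} {B : ℕ → ℕ → ℝ}

lemma lam_le_EE (q : Pe6 κ lam N L C ℓ B) : lam ≤ EE lam := by
  have := q.EE_lam
  have := q.lamp
  nlinarith

/-- the exponentials beat the constants, `N`, and the powers of `lam` -/
lemma tiny (q : Pe6 κ lam N L C ℓ B) (k : ℕ) (hk : k ≤ 5) {K β : ℝ} (_hK0 : 0 ≤ K)
    (hK : K ≤ 10 ^ 40) (h : β ≤ -(1 / 1000)) :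
    K * N * lam ^ k * Real.exp (β * lam) ≤ 1 / 10 ^ 20 := by
  have h1 := lam_le_EE q
  have h3 := q.EE_big
  have h4 := q.NE
  have h5 := q.N_one
  have h6 := q.lamp
  have h7 := EE_pos lam
  have h8 : K ≤ EE lam := by linarith
  have e : EE lam ^ (k + 2) = EE lam * EE lam * EE lam ^ k := by ring
  have h9 : K * N * lam ^ k ≤ EE lam ^ (k + 2) := by
    rw [e]
    gcongr
  have h10 : EE lam ^ (k + 2) * Real.exp (β * lam) ≤ 1 / 10 ^ 20 := by
    apply q.EE_small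
    push_cast
    have hk' : (k : ℝ) ≤ 5 := by exact_mod_cast hk
    linarith
  refine le_trans ?_ h10
  gcongr

lemma dd_pos (lam : ℝ) : 0 < dd lam := Real.exp_pos _

lemma dd_small (q : Pe6 κ lam N L C ℓ B) : dd lam ≤ 1 / 10 ^ 20 := q.exp_small (by norm_num)

lemma e2 (α β lam : ℝ) : Real.exp (α * lam) * Real.exp (β * lam) = Real.exp ((α + β) * lam) := by
  rw [← Real.exp_add]; congr 1; ring

end seq

/-! ### The positive part squared -/

lemma pos_sq_deriv (y : ℝ) : HasDerivAt (fun y : ℝ => max y 0 ^ 2) (2 * max y 0) y := by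
  rw [hasDerivAt_iff_isLittleO_nhds_zero]
  have hbd : ∀ h : ℝ, ‖max (y + h) 0 ^ 2 - max y 0 ^ 2 - h • (2 * max y 0)‖ ≤ ‖h ^ 2‖ := by
    intro h
    rw [Real.norm_eq_abs, Real.norm_eq_abs, abs_of_nonneg (sq_nonneg h), smul_eq_mul, abs_le]
    rcases le_total y 0 with hy | hy
    · rw [max_eq_right hy]
      rcases le_total (y + h) 0 with hz | hz
      · rw [max_eq_right hz]
        constructor <;> nlinarith [sq_nonneg h]
      · rw [max_eq_left hz]
        constructor <;> nlinarith [sq_nonneg h, sq_nonneg (y + h), mul_nonneg hz (neg_nonneg.2 hy)]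
    · rw [max_eq_left hy]
      rcases le_total (y + h) 0 with hz | hz
      · rw [max_eq_right hz]
        constructor <;> nlinarith [sq_nonneg h, sq_nonneg (y + h), mul_nonneg hy (neg_nonneg.2 hz)]
      · rw [max_eq_left hz]
        constructor <;> nlinarith [sq_nonneg h, sq_nonneg (y + h)]
  have h1 : (fun h : ℝ => max (y + h) 0 ^ 2 - max y 0 ^ 2 - h • (2 * max y 0)) =O[𝓝 0]
      (fun h : ℝ => h ^ 2) := Asymptotics.IsBigO.of_bound 1 (Eventually.of_forall fun h => by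
    rw [one_mul]; exact hbd h)
  have h2 : (fun h : ℝ => h ^ 2) =o[𝓝 0] (fun h : ℝ => h) := by
    have := Asymptotics.isLittleO_pow_pow (𝕜 := ℝ) (show 1 < 2 by norm_num)
    simpa using this
  exact h1.trans_isLittleO h2

/-! ### Pointwise facts -/

variable {κ lam N Q η : ℝ} {L C ℓ : ℕ → ℝ} {B : ℕ → ℕ → ℝ} {T : ℝ}
  {x w f : ℕ → ℝ → ℝ} {n : ℕ} {σ : ℕ → ℝ} {t1 t : ℝ}

lemma σnn (h : Stg κ lam η L T x w n σ) {i : ℕ} (hi : i ≤ n) : 0 ≤ σ i := by
  induction i with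
  | zero => rw [h.σ0]
  | succ i ih => exact (ih (by omega)).trans (h.σlt i (by omega)).le

lemma tI (H : BH κ lam N Q η L C ℓ B T x w f n σ t1 t) {τ : ℝ} (hτ : τ ∈ Icc (σ n) t) :
    τ ∈ Ico 0 T :=
  ⟨(σnn H.h le_rfl).trans hτ.1, (hτ.2.trans_lt H.ht.2).trans_le H.hc.leT⟩

lemma tI0 (H : BH κ lam N Q η L C ℓ B T x w f n σ t1 t) {τ : ℝ} (hτ : τ ∈ Ioo (σ n) t) :
    τ ∈ Ioo 0 T :=
  ⟨(σnn H.h le_rfl).trans_lt hτ.1, (hτ.2.trans H.ht.2).trans_le H.hc.leT⟩

lemma tI1 (H : BH κ lam N Q η L C ℓ B T x w f n σ t1 t) {τ : ℝ} (hτ : τ ∈ Icc (σ n) t) :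
    τ ∈ Ico (σ n) t1 := ⟨hτ.1, hτ.2.trans_lt H.ht.2⟩

lemma x1 (H : BH κ lam N Q η L C ℓ B T x w f n σ t1 t) {τ : ℝ} (hτ : τ ∈ Icc (σ n) t) :
    |x (n + 1) τ| ≤ 1 := by
  refine (H.g.x_le (tI H hτ) _).trans ?_
  have h1 := (H.hc.act τ (tI1 H hτ)).1
  rw [Real.sqrt_le_one]
  exact h1.le

/-- lower bound of the shifted mode -/
lemma zz_lo (H : BH κ lam N Q η L C ℓ B T x w f n σ t1 t) {τ : ℝ} (hτ : τ ∈ Icc (σ n) t) :
    3 / 4 * C n ≤ zz C x n τ := by
  have hC := H.g.q.Cp n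
  rcases hτ.2.eq_or_lt with h1 | h1
  · have := H.hr
    rw [h1]
    linarith
  · have := (H.hy τ ⟨hτ.1, h1⟩).r
    unfold zz
    linarith

lemma zz_pos (H : BH κ lam N Q η L C ℓ B T x w f n σ t1 t) {τ : ℝ} (hτ : τ ∈ Icc (σ n) t) :
    0 < zz C x n τ := by
  have hC := H.g.q.Cp n
  have := zz_lo H hτ
  linarith

lemma zz_hi (H : BH κ lam N Q η L C ℓ B T x w f n σ t1 t) {τ : ℝ} (hτ : τ ∈ Icc (σ n) t) :
    zz C x n τ ≤ 1 + 1 / 10 ^ 20 := by
  have h1 := (abs_le.1 (x1 H hτ)).2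
  have h2 := H.g.q.C_small n
  unfold zz
  linarith

/-- the mode `n + 1` in terms of the shifted mode -/
lemma x1_le (H : BH κ lam N Q η L C ℓ B T x w f n σ t1 t) {τ : ℝ} (hτ : τ ∈ Icc (σ n) t) :
    |x (n + 1) τ| ≤ zz C x n τ := by
  have hC := H.g.q.Cp n
  have h1 := zz_lo H hτ
  rw [abs_le]
  unfold zz at *
  constructor <;> linarith

lemma th_nonneg (q : Pe6 κ lam N L C ℓ B) (x : ℕ → ℝ → ℝ) (n : ℕ) (τ : ℝ) : 0 ≤ th lam C x n τ := by
  have := q.lamp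
  unfold th
  positivity

/-- upper bound of the exponent -/
lemma th_hi (H : BH κ lam N Q η L C ℓ B T x w f n σ t1 t) {τ : ℝ} (hτ : τ ∈ Icc (σ n) t) :
    th lam C x n τ ≤ 5576 / 100000 * lam := by
  have hl := H.g.q.lamp
  have h1 := zz_hi H hτ
  have h2 : max (zz C x n τ - 8952 / 10000) 0 ≤ 1048 / 10000 + 1 / 10 ^ 20 :=
    max_le (by linarith) (by norm_num)
  have h3 : 0 ≤ max (zz C x n τ - 8952 / 10000) 0 := le_max_right _ _
  have h4 : max (zz C x n τ - 8952 / 10000) 0 ^ 2 ≤ (1048 / 10000 + 1 / 10 ^ 20) ^ 2 := by gcongr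
  unfold th
  calc 1000 / 197 * lam * max (zz C x n τ - 8952 / 10000) 0 ^ 2
      ≤ 1000 / 197 * lam * (1048 / 10000 + 1 / 10 ^ 20) ^ 2 := by gcongr
    _ = (1000 / 197 * (1048 / 10000 + 1 / 10 ^ 20) ^ 2) * lam := by ring
    _ ≤ _ := by
        gcongr
        norm_num

/-- derivative of the exponent -/
lemma th_deriv (H : BH κ lam N Q η L C ℓ B T x w f n σ t1 t) {τ : ℝ} (hτ : τ ∈ Ioo (σ n) t) :
    ∃ θ, HasDerivAt (th lam C x n) θ τ ∧
      L (n + 1) * (zz C x n τ * max (zz C x n τ - 8952 / 10000) 0) ≤ θ := by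
  have hτ' : τ ∈ Icc (σ n) t := ⟨hτ.1.le, hτ.2.le⟩
  obtain ⟨r', h1, h2⟩ := H.hd τ hτ
  have hr := zz_pos H hτ'
  have hl := H.g.q.lamp
  have h3 : HasDerivAt (fun s => zz C x n s - 8952 / 10000) r' τ := h1.sub_const _
  have h4 : HasDerivAt (fun s => max (zz C x n s - 8952 / 10000) 0 ^ 2)
      (2 * max (zz C x n τ - 8952 / 10000) 0 * r') τ :=
    HasDerivAt.comp (h₂ := fun y : ℝ => max y 0 ^ 2) (h := fun s => zz C x n s - 8952 / 10000) τ
      (pos_sq_deriv (zz C x n τ - 8952 / 10000)) h3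
  have h5 : HasDerivAt (th lam C x n)
      (1000 / 197 * lam * (2 * max (zz C x n τ - 8952 / 10000) 0 * r')) τ :=
    h4.const_mul (1000 / 197 * lam)
  refine ⟨_, h5, ?_⟩
  set mm := max (zz C x n τ - 8952 / 10000) 0 with hmm
  have h6 : 0 ≤ mm := le_max_right _ _
  rw [H.g.q.L_succ]
  have h7 : 1000 / 197 * lam * (2 * mm * (985 / 10000 * (L n * zz C x n τ)))
      ≤ 1000 / 197 * lam * (2 * mm * r') := by gcongr
  refine le_trans (le_of_eq ?_) h7
  ring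

/-- continuity of the exponent -/
lemma th_cont (H : BH κ lam N Q η L C ℓ B T x w f n σ t1 t) :
    ContinuousOn (th lam C x n) (Icc (σ n) t) := by
  have hsub : Icc (σ n) t ⊆ Ico 0 T := fun τ hτ => tI H hτ
  have h1 : ContinuousOn (zz C x n) (Icc (σ n) t) := by
    unfold zz
    exact ((H.g.cont (n + 1)).mono hsub).add continuousOn_const
  unfold th
  exact continuousOn_const.mul (((h1.sub continuousOn_const).sup continuousOn_const).pow 2)

/-- the conclusion of `S_BAR1` at the time `τ` -/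
def B1 (κ lam : ℝ) (C : ℕ → ℝ) (x w : ℕ → ℝ → ℝ) (n : ℕ) (τ : ℝ) : Prop :=
  w (n + 1) τ ≤ dd lam ∧
    ∀ j : ℕ, √(Yk κ x w (n + 2 + j) τ) ≤ bb lam C x n j τ ∧
      w (n + 2 + j) τ ≤ dd lam * bb lam C x n j τ

lemma bb_pos (lam : ℝ) (C : ℕ → ℝ) (x : ℕ → ℝ → ℝ) (n j : ℕ) (τ : ℝ) : 0 < bb lam C x n j τ := by
  unfold bb
  positivity

lemma nb_pos (lam : ℝ) (C : ℕ → ℝ) (x : ℕ → ℝ → ℝ) (n j : ℕ) (τ : ℝ) : 0 < nb lam C x n j τ := by
  unfold nb
  positivity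

/-- upper bound of the barriers -/
lemma bb_le (H : BH κ lam N Q η L C ℓ B T x w f n σ t1 t) {τ : ℝ} (hτ : τ ∈ Icc (σ n) t) (j : ℕ) :
    bb lam C x n j τ ≤ Real.exp ((-(Pp (j + 1)) + 5576 / 100000) * lam) := by
  have h1 := th_hi H hτ
  unfold bb
  rw [← Real.exp_add]
  apply Real.exp_le_exp.2
  linarith

lemma bb_small (H : BH κ lam N Q η L C ℓ B T x w f n σ t1 t) {τ : ℝ} (hτ : τ ∈ Icc (σ n) t) (j : ℕ) :
    bb lam C x n j τ ≤ 1 / 10 ^ 20 := by
  refine (bb_le H hτ j).trans (H.g.q.exp_small ?_)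
  have hj : (0 : ℝ) ≤ j := Nat.cast_nonneg j
  unfold Pp
  push_cast
  linarith

/-- `lam * bb` is small -/
lemma lam_bb (H : BH κ lam N Q η L C ℓ B T x w f n σ t1 t) {τ : ℝ} (hτ : τ ∈ Icc (σ n) t) (j : ℕ) :
    lam * bb lam C x n j τ ≤ 1 / 10 ^ 20 := by
  have hl := H.g.q.lamp
  have hN := H.g.q.N_one
  have h1 := tiny H.g.q 1 (by norm_num) (K := 1) (β := -(Pp (j + 1)) + 5576 / 100000) (by norm_num)
    (by norm_num) (by
      have hj : (0 : ℝ) ≤ j := Nat.cast_nonneg j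
      unfold Pp
      push_cast
      linarith)
  refine le_trans ?_ h1
  have h2 := bb_le H hτ j
  calc lam * bb lam C x n j τ ≤ lam * Real.exp ((-(Pp (j + 1)) + 5576 / 100000) * lam) := by gcongr
    _ = 1 * 1 * lam ^ 1 * Real.exp ((-(Pp (j + 1)) + 5576 / 100000) * lam) := by ring
    _ ≤ _ := by gcongr

/-- `bb` in terms of `nb` -/
lemma bb_nb (i j : ℕ) (τ : ℝ) :
    bb lam C x n i τ = nb lam C x n j τ * Real.exp ((Pn (j + 1) - Pp (i + 1)) * lam) := by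
  unfold bb nb
  have : Real.exp (-(Pp (i + 1)) * lam)
      = Real.exp (-(Pn (j + 1)) * lam) * Real.exp ((Pn (j + 1) - Pp (i + 1)) * lam) := by
    rw [← Real.exp_add]; congr 1; ring
  rw [this]; ring

/-- lower bound of the barriers -/
lemma one_le_nb (q : Pe6 κ lam N L C ℓ B) (τ : ℝ) (j : ℕ) :
    1 ≤ nb lam C x n j τ * Real.exp (Pn (j + 1) * lam) := by
  have h1 := th_nonneg q x n τ
  unfold nb
  have e : Real.exp (-(Pn (j + 1)) * lam) * Real.exp (th lam C x n τ) * Real.exp (Pn (j + 1) * lam)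
      = Real.exp (th lam C x n τ) := by
    rw [mul_right_comm, ← Real.exp_add]
    rw [show -(Pn (j + 1)) * lam + Pn (j + 1) * lam = 0 by ring, Real.exp_zero, one_mul]
  rw [e]
  exact Real.one_le_exp h1

/-- decay of the barriers -/
lemma bb_add (H : BH κ lam N Q η L C ℓ B T x w f n σ t1 t) (j k : ℕ) (τ : ℝ) :
    bb lam C x n (j + k) τ ≤ (1 / 2) ^ k * bb lam C x n j τ := by
  have h1 := bb_pos lam C x n j τ
  have hl := H.g.q.lam_big
  have e : bb lam C x n (j + k) τ = Real.exp (-(558 / 10000 * lam)) ^ k * bb lam C x n j τ := by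
    unfold bb
    rw [← Real.exp_nat_mul]
    have : Real.exp (-(Pp (j + k + 1)) * lam)
        = Real.exp (k * -(558 / 10000 * lam)) * Real.exp (-(Pp (j + 1)) * lam) := by
      rw [← Real.exp_add]; congr 1; unfold Pp; push_cast; ring
    rw [this]; ring
  rw [e]
  have h2 : Real.exp (-(558 / 10000 * lam)) ≤ 1 / 2 := by
    have h3 := Real.add_one_le_exp (558 / 10000 * lam)
    have h4 : Real.exp (-(558 / 10000 * lam)) * Real.exp (558 / 10000 * lam) = 1 := by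
      rw [← Real.exp_add]; simp
    have h5 := Real.exp_pos (-(558 / 10000 * lam))
    nlinarith
  gcongr

lemma bb_succ (H : BH κ lam N Q η L C ℓ B T x w f n σ t1 t) (j : ℕ) (τ : ℝ) :
    bb lam C x n (j + 1) τ ≤ bb lam C x n j τ := by
  have h1 := bb_add H j 1 τ
  have h2 := bb_pos lam C x n j τ
  rw [pow_one] at h1
  linarith

/-! ### Bounds of the quantities -/

lemma xw (H : BH κ lam N Q η L C ℓ B T x w f n σ t1 t) {τ : ℝ} (hτ : τ ∈ Icc (σ n) t)
    (b : B1 κ lam C x w n τ) (k : ℕ) : |x (n + k) τ| ≤ 3 / 2 ∧ w (n + k) τ ≤ dd lam := by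
  rcases k with _ | _ | j
  · have h1 := H.ub.Y n le_rfl τ (tI1 H hτ)
    exact ⟨(H.g.x_le (tI H hτ) _).trans h1, H.ub.w n le_rfl τ (tI1 H hτ)⟩
  · have h1 := x1 H hτ
    refine ⟨?_, b.1⟩
    show |x (n + 1) τ| ≤ 3 / 2
    linarith
  · have h1 := (b.2 j).1.trans (bb_small H hτ j)
    have h2 := H.g.x_le (tI H hτ) (n + 2 + j)
    have h3 := (b.2 j).2
    have h4 := bb_small H hτ j
    have h5 := dd_pos lam
    have h6 := bb_pos lam C x n j τ
    rw [show n + (j + 1 + 1) = n + 2 + j by ring]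
    refine ⟨by linarith, h3.trans ?_⟩
    nlinarith

lemma A_le (H : BH κ lam N Q η L C ℓ B T x w f n σ t1 t) {τ : ℝ} (hτ : τ ∈ Icc (σ n) t)
    (b : B1 κ lam C x w n τ) (k : ℕ) : At lam x w (n + k) τ ≤ 2 := by
  induction k with
  | zero =>
    have := (H.ub.low n le_rfl τ (tI1 H hτ)).A
    rw [add_zero]
    linarith
  | succ k ih =>
    rw [← add_assoc, Gd.A_succ]
    obtain ⟨h1, h2⟩ := xw H hτ b k
    have h3 := H.g.q.sq_lam
    have h4 := H.g.q.sq_lam0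
    have h5 := H.g.A_nonneg (tI H hτ) (n + k)
    have h6 := dd_small H.g.q
    have h7 : (√lam)⁻¹ * At lam x w (n + k) τ ≤ 1 / 10 ^ 15 * 2 := by gcongr
    linarith

lemma Aw_le (H : BH κ lam N Q η L C ℓ B T x w f n σ t1 t) {τ : ℝ} (hτ : τ ∈ Icc (σ n) t)
    (b : B1 κ lam C x w n τ) (k : ℕ) : Aw lam w (n + k) τ ≤ 2 * dd lam := by
  induction k with
  | zero => exact (H.ub.low n le_rfl τ (tI1 H hτ)).Aw
  | succ k ih =>
    rw [← add_assoc, Gd.Aw_succ]
    have h1 := (xw H hτ b k).2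
    have h3 := H.g.q.sq_lam
    have h4 := H.g.q.sq_lam0
    have h5 := H.g.Aw_nonneg (tI H hτ) (n + k)
    have h6 := dd_pos lam
    have h7 : (√lam)⁻¹ * Aw lam w (n + k) τ ≤ 1 / 10 ^ 15 * (2 * dd lam) := by gcongr
    linarith

lemma Uw_le (H : BH κ lam N Q η L C ℓ B T x w f n σ t1 t) {τ : ℝ} (hτ : τ ∈ Icc (σ n) t)
    (b : B1 κ lam C x w n τ) (k : ℕ) : Uw L w (n + k + 1) τ ≤ 2 * dd lam * L (n + k) := by
  have hl := H.g.q.lamp
  have hlb := H.g.q.lam_big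
  have hd := dd_pos lam
  induction k with
  | zero =>
    rw [add_zero, Gd.Uw_succ]
    have h1 := (H.ub.low n le_rfl τ (tI1 H hτ)).Uw
    have h2 := (xw H hτ b 0).2
    rw [add_zero] at h2
    have hL := H.g.q.Lp n
    have h3 : L n / lam ≤ 1 / 10 ^ 20 * L n := by
      rw [div_le_iff₀ hl]
      nlinarith
    have h4 : L n * w n τ ≤ L n * dd lam := by gcongr
    have h5 : 2 * dd lam * (L n / lam) ≤ 2 * dd lam * (1 / 10 ^ 20 * L n) := by gcongr
    nlinarith [mul_pos hd hL]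
  | succ k ih =>
    rw [← add_assoc, Gd.Uw_succ]
    have h2 := (xw H hτ b (k + 1)).2
    rw [← add_assoc] at h2
    have hL := H.g.q.Lp (n + k)
    have hL1 := H.g.q.Lp (n + k + 1)
    have h4 : L (n + k + 1) * w (n + k + 1) τ ≤ L (n + k + 1) * dd lam := by gcongr
    have h5 : L (n + k) ≤ 1 / 2 * L (n + k + 1) := by
      rw [H.g.q.L_succ]
      nlinarith
    nlinarith [mul_pos hd hL]

/-- crude bound for the strain of the modes -/
lemma U_le2 (H : BH κ lam N Q η L C ℓ B T x w f n σ t1 t) {τ : ℝ} (hτ : τ ∈ Icc (σ n) t)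
    (b : B1 κ lam C x w n τ) (k : ℕ) : Ut L x (n + k + 1) τ ≤ 2 * L (n + k) := by
  have hl := H.g.q.lamp
  have hlb := H.g.q.lam_big
  induction k with
  | zero =>
    rw [add_zero, Gd.U_succ]
    have h1 := (H.ub.low n le_rfl τ (tI1 H hτ)).U
    have h2 := (xw H hτ b 0).1
    rw [add_zero] at h2
    have hL := H.g.q.Lp n
    have h3 : L n / lam ≤ 1 / 10 ^ 20 * L n := by
      rw [div_le_iff₀ hl]
      nlinarith
    have h4 : L n * |x n τ| ≤ L n * (3 / 2) := by gcongr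
    linarith
  | succ k ih =>
    rw [← add_assoc, Gd.U_succ]
    have h2 := (xw H hτ b (k + 1)).1
    rw [← add_assoc] at h2
    have hL := H.g.q.Lp (n + k)
    have hL1 := H.g.q.Lp (n + k + 1)
    have h4 : L (n + k + 1) * |x (n + k + 1) τ| ≤ L (n + k + 1) * (3 / 2) := by gcongr
    have h5 : L (n + k) ≤ 1 / 8 * L (n + k + 1) := by
      rw [H.g.q.L_succ]
      nlinarith
    linarith

/-- the strain of the mode `n + 2` -/
lemma U_le0 (H : BH κ lam N Q η L C ℓ B T x w f n σ t1 t) {τ : ℝ} (hτ : τ ∈ Icc (σ n) t)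
    (b : B1 κ lam C x w n τ) : Ut L x (n + 2) τ ≤ L (n + 1) * (zz C x n τ + 1 / 10 ^ 20) := by
  have hl := H.g.q.lamp
  have hlb := H.g.q.lam_big
  rw [show n + 2 = n + 1 + 1 by ring, Gd.U_succ]
  have h1 := U_le2 H hτ b 0
  rw [add_zero] at h1
  have h2 := x1_le H hτ
  have hL := H.g.q.Lp n
  have hL1 := H.g.q.Lp (n + 1)
  have h4 : L (n + 1) * |x (n + 1) τ| ≤ L (n + 1) * zz C x n τ := by gcongr
  have h5 : 2 * L n ≤ 1 / 10 ^ 20 * L (n + 1) := by
    rw [H.g.q.L_succ]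
    nlinarith
  linarith

/-- the strain of the higher modes -/
lemma U_leS (H : BH κ lam N Q η L C ℓ B T x w f n σ t1 t) {τ : ℝ} (hτ : τ ∈ Icc (σ n) t)
    (b : B1 κ lam C x w n τ) (i : ℕ) :
    Ut L x (n + 2 + (i + 1)) τ ≤ 1 / 1000 * L (n + 2 + i) := by
  have hl := H.g.q.lamp
  have hlb := H.g.q.lam_big
  rw [← add_assoc, Gd.U_succ]
  have h1 := U_le2 H hτ b (i + 1)
  rw [show n + (i + 1) + 1 = n + 2 + i by ring, show n + (i + 1) = n + 1 + i by ring] at h1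
  have h2 := (H.g.x_le (tI H hτ) (n + 2 + i)).trans ((b.2 i).1.trans (bb_small H hτ i))
  have hL := H.g.q.Lp (n + 1 + i)
  have hL1 := H.g.q.Lp (n + 2 + i)
  have h4 : L (n + 2 + i) * |x (n + 2 + i) τ| ≤ L (n + 2 + i) * (1 / 10 ^ 20) := by gcongr
  have h5 : 2 * L (n + 1 + i) ≤ 1 / 10 ^ 20 * L (n + 2 + i) := by
    rw [show n + 2 + i = n + 1 + i + 1 by ring, H.g.q.L_succ]
    nlinarith
  linarith

/-- the tails of the other modes -/
lemma W_le (H : BH κ lam N Q η L C ℓ B T x w f n σ t1 t) {τ : ℝ} (hτ : τ ∈ Icc (σ n) t)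
    (b : B1 κ lam C x w n τ) (j : ℕ) :
    √(Wk κ w (n + 2 + j) τ) ≤ 2 * dd lam * bb lam C x n j τ := by
  have hb := bb_pos lam C x n j τ
  have hd := dd_pos lam
  have h1 : ∀ k : ℕ, w (n + 2 + j + k) τ ^ 2
      ≤ (dd lam * bb lam C x n j τ) ^ 2 * (1 / 2) ^ k := by
    intro k
    have h2 := (b.2 (j + k)).2
    have h3 := bb_add H j k τ
    have h4 := H.g.sy.w0 (n + 2 + j + k) τ (tI H hτ)
    have h5 : w (n + 2 + j + k) τ ≤ dd lam * ((1 / 2) ^ k * bb lam C x n j τ) := by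
      rw [add_assoc (n + 2) j k]
      exact h2.trans (by gcongr)
    have h6 : (1 / 2 : ℝ) ^ k ≤ 1 := pow_le_one₀ (by norm_num) (by norm_num)
    have h7 : (0 : ℝ) < (1 / 2) ^ k := by positivity
    calc w (n + 2 + j + k) τ ^ 2 ≤ (dd lam * ((1 / 2) ^ k * bb lam C x n j τ)) ^ 2 := by
          gcongr
      _ = (dd lam * bb lam C x n j τ) ^ 2 * ((1 / 2) ^ k * (1 / 2) ^ k) := by ring
      _ ≤ (dd lam * bb lam C x n j τ) ^ 2 * (1 * (1 / 2) ^ k) := by gcongr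
      _ = _ := by ring
  have hS : Summable fun k : ℕ => (dd lam * bb lam C x n j τ) ^ 2 * (1 / 2 : ℝ) ^ k :=
    Gd.geo _
  have h2 : Wk κ w (n + 2 + j) τ ≤ (dd lam * bb lam C x n j τ) ^ 2 * 2 := by
    have h1' : ∀ k : ℕ, κ ^ (2 * k) * w (n + 2 + j + k) τ ^ 2
        ≤ (dd lam * bb lam C x n j τ) ^ 2 * (1 / 2) ^ k := fun k =>
      (mul_le_of_le_one_left (sq_nonneg _) (H.g.q.κk _)).trans (h1 k)
    unfold Wk
    refine ((H.g.summkw (tI H hτ) (n + 2 + j)).tsum_le_tsum h1' hS).trans (le_of_eq ?_)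
    rw [tsum_mul_left, tsum_geometric_two]
  apply Real.sqrt_le_iff.2
  refine ⟨by positivity, h2.trans ?_⟩
  nlinarith [sq_nonneg (dd lam * bb lam C x n j τ)]

/-- lower bound for the vector field at a negative mode, with the damping -/
lemma vf_ge_neg' (g : Gd κ lam N Q η L C ℓ B T x w f) {t : ℝ} (ht : t ∈ Ico 0 T) (m : ℕ)
    (hx : x m t ≤ 0) :
    -((C m * L m * |x (m + 1) t| + 1001 / 1000 * Ut L x m t - ℓ m) * |x m t|)
        - 1001 / 1000 * L m * (κ ^ 2 * Yk κ x w (m + 1) t) - |f m t|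
      ≤ vfk κ L C ℓ B (fun k => x k t) m + f m t := by
  obtain ⟨h1, h2, h3, h4⟩ := g.vf_terms ht m
  have h5 : |x m t| = -(x m t) := abs_of_nonpos hx
  have h6 := neg_abs_le (f m t)
  have h7 := neg_le_of_abs_le h1
  have h8 := le_of_abs_le h4
  have h9 := Gd.src_nonneg (x := x) g.q m t
  unfold vfk
  unfold Gd.src at h9
  simp only
  rw [h5] at h7 h8 ⊢
  linarith

/-- a product of the form `K N lam ^ k exp (β lam)` times `G nb` -/
lemma pk (q : Pe6 κ lam N L C ℓ B) (τ : ℝ) (j k : ℕ) (hk : k ≤ 5)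
    {K β G : ℝ} (hG : 0 ≤ G) (hK0 : 0 ≤ K) (hK : K ≤ 10 ^ 40) (h : β ≤ -(1 / 1000)) :
    K * N * lam ^ k * Real.exp (β * lam) * (G * nb lam C x n j τ)
      ≤ 1 / 10 ^ 20 * (G * nb lam C x n j τ) := by
  have h1 := tiny q k hk hK0 hK h
  have hb := nb_pos lam C x n j τ
  gcongr

lemma Lm (q : Pe6 κ lam N L C ℓ B) (n j : ℕ) : L (n + 2 + j) = lam * L (n + 1 + j) := by
  rw [show n + 2 + j = n + 1 + j + 1 by ring, q.L_succ]

/-- first term of the force -/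
lemma f1 (H : BH κ lam N Q η L C ℓ B T x w f n σ t1 t) {τ : ℝ} (hτ : τ ∈ Icc (σ n) t)
    (b : B1 κ lam C x w n τ) (j : ℕ) :
    N * (L (n + 2 + j) * (1 + At lam x w (n + 2 + j) τ + √(Yk κ x w (n + 2 + j) τ))
      * √(Wk κ w (n + 2 + j) τ)) ≤ 1 / 10 ^ 20 * (L (n + 1 + j) * nb lam C x n j τ) := by
  have hN := H.g.q.N_one
  have hl := H.g.q.lamp
  have hL := H.g.q.Lp (n + 1 + j)
  have hd := dd_pos lam
  have hb := bb_pos lam C x n j τ
  have h1 : At lam x w (n + 2 + j) τ ≤ 2 := by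
    rw [add_assoc]; exact A_le H hτ b (2 + j)
  have h2 := (b.2 j).1.trans (bb_small H hτ j)
  have h3 := W_le H hτ b j
  have h4 : 1 + At lam x w (n + 2 + j) τ + √(Yk κ x w (n + 2 + j) τ) ≤ 4 := by linarith
  have h5 := pk (C := C) (x := x) (n := n) H.g.q τ j 1 (by norm_num) (K := 8) (G := L (n + 1 + j))
    (β := -(1 / 2) + (Pn (j + 1) - Pp (j + 1))) hL.le (by norm_num)
    (by norm_num) (by unfold Pn Pp; linarith)
  have hA0 := H.g.A_nonneg (tI H hτ) (n + 2 + j)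
  refine le_trans ?_ h5
  rw [Lm H.g.q n j]
  calc N * (lam * L (n + 1 + j) * (1 + At lam x w (n + 2 + j) τ + √(Yk κ x w (n + 2 + j) τ))
        * √(Wk κ w (n + 2 + j) τ))
      ≤ N * (lam * L (n + 1 + j) * 4 * (2 * dd lam * bb lam C x n j τ)) := by
        gcongr
    _ = 8 * N * lam ^ 1 * (dd lam * Real.exp ((Pn (j + 1) - Pp (j + 1)) * lam))
          * (L (n + 1 + j) * nb lam C x n j τ) := by
        rw [bb_nb j j τ]; ring
    _ = _ := by
        rw [dd, e2]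

/-- second term of the force -/
lemma f2 (H : BH κ lam N Q η L C ℓ B T x w f n σ t1 t) {τ : ℝ} (hτ : τ ∈ Icc (σ n) t)
    (b : B1 κ lam C x w n τ) (j : ℕ) :
    N * (Uw L w (n + 2 + j) τ * √(Yk κ x w (n + 2 + j) τ))
      ≤ 1 / 10 ^ 20 * (L (n + 1 + j) * nb lam C x n j τ) := by
  have hN := H.g.q.N_one
  have hl := H.g.q.lamp
  have hl1 := H.g.q.lam1
  have hL := H.g.q.Lp (n + 1 + j)
  have hd := dd_pos lam
  have hb := bb_pos lam C x n j τ
  have hnb := nb_pos lam C x n j τ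
  have h1 := Uw_le H hτ b (j + 1)
  rw [show n + (j + 1) + 1 = n + 2 + j by ring, show n + (j + 1) = n + 1 + j by ring] at h1
  have h2 := (b.2 j).1
  have h5 := pk (C := C) (x := x) (n := n) H.g.q τ j 0 (by norm_num) (K := 2) (G := L (n + 1 + j))
    (β := -(1 / 2) + (Pn (j + 1) - Pp (j + 1))) hL.le (by norm_num)
    (by norm_num) (by unfold Pn Pp; linarith)
  refine le_trans ?_ h5
  calc N * (Uw L w (n + 2 + j) τ * √(Yk κ x w (n + 2 + j) τ))
      ≤ N * ((2 * dd lam * L (n + 1 + j)) * bb lam C x n j τ) := by gcongr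
    _ = 2 * N * lam ^ 0 * (dd lam * Real.exp ((Pn (j + 1) - Pp (j + 1)) * lam))
          * (L (n + 1 + j) * nb lam C x n j τ) := by
        rw [bb_nb j j τ]; ring
    _ = _ := by rw [dd, e2]

/-- third term of the force -/
lemma f3 (H : BH κ lam N Q η L C ℓ B T x w f n σ t1 t) {τ : ℝ} (hτ : τ ∈ Icc (σ n) t)
    (b : B1 κ lam C x w n τ) (j : ℕ) :
    N * (L (n + 2 + j) * Aw lam w (n + 2 + j) τ * √(Yk κ x w (n + 2 + j + 1) τ))
      ≤ 1 / 10 ^ 20 * (L (n + 1 + j) * nb lam C x n j τ) := by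
  have hN := H.g.q.N_one
  have hl := H.g.q.lamp
  have hL := H.g.q.Lp (n + 1 + j)
  have hd := dd_pos lam
  have hb := bb_pos lam C x n j τ
  have h1 : Aw lam w (n + 2 + j) τ ≤ 2 * dd lam := by
    rw [add_assoc]; exact Aw_le H hτ b (2 + j)
  have h2 := (b.2 (j + 1)).1.trans (bb_succ H j τ)
  rw [← add_assoc] at h2
  have h5 := pk (C := C) (x := x) (n := n) H.g.q τ j 1 (by norm_num) (K := 2) (G := L (n + 1 + j))
    (β := -(1 / 2) + (Pn (j + 1) - Pp (j + 1))) hL.le (by norm_num)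
    (by norm_num) (by unfold Pn Pp; linarith)
  refine le_trans ?_ h5
  rw [Lm H.g.q n j]
  calc N * (lam * L (n + 1 + j) * Aw lam w (n + 2 + j) τ * √(Yk κ x w (n + 2 + j + 1) τ))
      ≤ N * (lam * L (n + 1 + j) * (2 * dd lam) * bb lam C x n j τ) := by
        gcongr
    _ = 2 * N * lam ^ 1 * (dd lam * Real.exp ((Pn (j + 1) - Pp (j + 1)) * lam))
          * (L (n + 1 + j) * nb lam C x n j τ) := by
        rw [bb_nb j j τ]; ring
    _ = _ := by
        rw [dd, e2]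

/-- fourth term of the force -/
lemma f4 (H : BH κ lam N Q η L C ℓ B T x w f n σ t1 t) {τ : ℝ} (hτ : τ ∈ Icc (σ n) t)
    (b : B1 κ lam C x w n τ) (j : ℕ) :
    N * loc L x w (n + 2 + j) τ ≤ 1 / 10 ^ 20 * (L (n + 1 + j) * nb lam C x n j τ) := by
  have hN := H.g.q.N_one
  have hl := H.g.q.lamp
  have hL := H.g.q.Lp (n + 1 + j)
  have hd := dd_pos lam
  have hds := dd_small H.g.q
  have hnb := nb_pos lam C x n j τ
  have hτI := tI H hτ
  have hm : ¬ (n + 2 + j = 0) := by omega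
  have e1 : n + 2 + j - 1 = n + (j + 1) := by omega
  have e0 : n + 2 + j - 2 = n + j := by omega
  rw [loc, if_neg hm, e1, e0]
  have hw0 := H.g.sy.w0 (n + j) τ hτI
  have hw1 := H.g.sy.w0 (n + (j + 1)) τ hτI
  have eL : L (n + (j + 1)) = L (n + 1 + j) := by congr 1; ring
  rcases Nat.lt_or_ge j 2 with hj2 | hj2
  · -- j ≤ 1
    have hjr : (j : ℝ) ≤ 1 := by exact_mod_cast Nat.lt_succ_iff.1 hj2
    obtain ⟨h1, h2⟩ := xw H hτ b (j + 1)
    obtain ⟨h3, h4⟩ := xw H hτ b j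
    have h7 := one_le_nb (x := x) (n := n) H.g.q τ j
    have h8 := pk (C := C) (x := x) (n := n) H.g.q τ j 0 (by norm_num) (K := 8)
      (G := L (n + 1 + j)) (β := -(1 / 2) + Pn (j + 1)) hL.le (by norm_num) (by norm_num)
      (by unfold Pn; push_cast; linarith)
    refine le_trans ?_ h8
    have h9 : |x (n + (j + 1)) τ| + w (n + (j + 1)) τ + |x (n + j) τ| + w (n + j) τ ≤ 4 := by
      linarith
    have h10 : w (n + (j + 1)) τ + w (n + j) τ ≤ 2 * dd lam := by linarith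
    rw [eL]
    calc N * (L (n + 1 + j) * ((|x (n + (j + 1)) τ| + w (n + (j + 1)) τ + |x (n + j) τ|
            + w (n + j) τ) * (w (n + (j + 1)) τ + w (n + j) τ)))
        ≤ N * (L (n + 1 + j) * (4 * (2 * dd lam))) := by gcongr
      _ = (8 * N * dd lam * L (n + 1 + j)) * 1 := by ring
      _ ≤ (8 * N * dd lam * L (n + 1 + j))
            * (nb lam C x n j τ * Real.exp (Pn (j + 1) * lam)) := by
          gcongr
      _ = 8 * N * lam ^ 0 * (dd lam * Real.exp (Pn (j + 1) * lam))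
            * (L (n + 1 + j) * nb lam C x n j τ) := by ring
      _ = _ := by rw [dd, e2]
  · -- j ≥ 2
    obtain ⟨i, rfl⟩ : ∃ i, j = i + 2 := ⟨j - 2, by omega⟩
    have hbi := bb_pos lam C x n i τ
    have hbs := bb_small H hτ i
    have hY := (b.2 i).1
    have e3 : n + (i + 2 + 1) = n + 2 + (i + 1) := by ring
    have e4 : n + (i + 2) = n + 2 + i := by ring
    rw [eL]
    rw [e3] at hw1
    rw [e4] at hw0
    rw [e3, e4]
    have hY1 := (b.2 (i + 1)).1.trans (bb_succ H i τ)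
    have h1 : |x (n + 2 + (i + 1)) τ| ≤ bb lam C x n i τ :=
      (H.g.x_le hτI _).trans hY1
    have h2 : w (n + 2 + (i + 1)) τ ≤ bb lam C x n i τ :=
      (H.g.w_le hτI _).trans hY1
    have h3 : |x (n + 2 + i) τ| ≤ bb lam C x n i τ :=
      (H.g.x_le hτI _).trans hY
    have h4 : w (n + 2 + i) τ ≤ bb lam C x n i τ :=
      (H.g.w_le hτI _).trans hY
    have h5 : w (n + 2 + (i + 1)) τ ≤ dd lam * bb lam C x n i τ :=
      (b.2 (i + 1)).2.trans (by have := bb_succ H i τ; gcongr)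
    have h6 := (b.2 i).2
    have h8 := pk (C := C) (x := x) (n := n) H.g.q τ (i + 2) 0 (by norm_num) (K := 8)
      (G := L (n + 1 + (i + 2)))
      (β := -(1 / 2) + (Pn (i + 2 + 1) - Pp (i + 1))) hL.le (by norm_num)
      (by norm_num) (by unfold Pn Pp; push_cast; linarith)
    refine le_trans ?_ h8
    have h9 : |x (n + 2 + (i + 1)) τ| + w (n + 2 + (i + 1)) τ + |x (n + 2 + i) τ|
        + w (n + 2 + i) τ ≤ 4 := by linarith
    have h10 : w (n + 2 + (i + 1)) τ + w (n + 2 + i) τ ≤ 2 * dd lam * bb lam C x n i τ := by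
      linarith
    calc N * (L (n + 1 + (i + 2)) * ((|x (n + 2 + (i + 1)) τ| + w (n + 2 + (i + 1)) τ
            + |x (n + 2 + i) τ| + w (n + 2 + i) τ)
            * (w (n + 2 + (i + 1)) τ + w (n + 2 + i) τ)))
        ≤ N * (L (n + 1 + (i + 2)) * (4 * (2 * dd lam * bb lam C x n i τ))) := by gcongr
      _ = 8 * N * lam ^ 0 * (dd lam * Real.exp ((Pn (i + 2 + 1) - Pp (i + 1)) * lam))
            * (L (n + 1 + (i + 2)) * nb lam C x n (i + 2) τ) := by
          rw [bb_nb i (i + 2) τ]; ring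
      _ = _ := by rw [dd, e2]

/-- the force is negligible -/
lemma fb_le (H : BH κ lam N Q η L C ℓ B T x w f n σ t1 t) {τ : ℝ} (hτ : τ ∈ Icc (σ n) t)
    (b : B1 κ lam C x w n τ) (j : ℕ) :
    |f (n + 2 + j) τ| ≤ 1 / 10 ^ 10 * (L (n + 1 + j) * nb lam C x n j τ) := by
  have h0 := H.g.sy.fb (n + 2 + j) τ (tI H hτ)
  have h1 := f1 H hτ b j
  have h2 := f2 H hτ b j
  have h3 := f3 H hτ b j
  have h4 := f4 H hτ b j
  have h5 : 0 < L (n + 1 + j) * nb lam C x n j τ :=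
    mul_pos (H.g.q.Lp _) (nb_pos lam C x n j τ)
  linarith

/-- the quadratic terms are negligible -/
lemma qd_le (H : BH κ lam N Q η L C ℓ B T x w f n σ t1 t) {τ : ℝ} (hτ : τ ∈ Icc (σ n) t)
    (b : B1 κ lam C x w n τ) (j : ℕ) :
    1001 / 1000 * L (n + 2 + j) * (κ ^ 2 * Yk κ x w (n + 2 + j + 1) τ)
      ≤ 1 / 10 ^ 20 * (L (n + 1 + j) * nb lam C x n j τ) := by
  have hj : (0 : ℝ) ≤ j := Nat.cast_nonneg j
  have hN := H.g.q.N_one
  have hl := H.g.q.lamp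
  have hL := H.g.q.Lp (n + 1 + j)
  have hb := bb_pos lam C x n j τ
  have hnb := nb_pos lam C x n j τ
  have h3 : Yk κ x w (n + 2 + j + 1) τ ≤ bb lam C x n (j + 1) τ * bb lam C x n (j + 1) τ := by
    have h4 := (b.2 (j + 1)).1
    rw [← add_assoc] at h4
    have h5 := Real.mul_self_sqrt (H.g.Y_nonneg (n + 2 + j + 1) τ)
    have h6 := Real.sqrt_nonneg (Yk κ x w (n + 2 + j + 1) τ)
    rw [← h5]
    exact mul_le_mul h4 h4 h6 (bb_pos lam C x n (j + 1) τ).le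
  have h7 := bb_le H hτ (j + 1)
  have h8 := pk (C := C) (x := x) (n := n) H.g.q τ j 1 (by norm_num) (K := 2) (G := L (n + 1 + j))
      (β := (-(Pp (j + 1 + 1)) + 5576 / 100000) + (Pn (j + 1) - Pp (j + 1 + 1))) hL.le (by norm_num)
      (by norm_num) (by unfold Pn Pp; push_cast; linarith)
  refine le_trans ?_ h8
  have hb1 := bb_pos lam C x n (j + 1) τ
  have hY0 := H.g.Y_nonneg (n + 2 + j + 1) τ
  have hc : (1001 / 1000 : ℝ) ≤ 2 := by norm_num
  have hκ : κ ^ 2 * Yk κ x w (n + 2 + j + 1) τ ≤ Yk κ x w (n + 2 + j + 1) τ :=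
    mul_le_of_le_one_left hY0 H.g.q.κsq
  have hκ0 : 0 ≤ κ ^ 2 * Yk κ x w (n + 2 + j + 1) τ := mul_nonneg (H.g.q.κk0 2).le hY0
  rw [Lm H.g.q n j]
  calc 1001 / 1000 * (lam * L (n + 1 + j)) * (κ ^ 2 * Yk κ x w (n + 2 + j + 1) τ)
      ≤ 2 * (lam * L (n + 1 + j)) * (bb lam C x n (j + 1) τ * bb lam C x n (j + 1) τ) :=
        mul_le_mul (by gcongr) (hκ.trans h3) hκ0 (by positivity)
    _ ≤ 2 * (lam * L (n + 1 + j)) * (Real.exp ((-(Pp (j + 1 + 1)) + 5576 / 100000) * lam)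
          * bb lam C x n (j + 1) τ) := by gcongr
    _ = 2 * (lam * L (n + 1 + j)) * (Real.exp ((-(Pp (j + 1 + 1)) + 5576 / 100000) * lam)
          * (nb lam C x n j τ * Real.exp ((Pn (j + 1) - Pp (j + 1 + 1)) * lam))) := by
        rw [bb_nb (j + 1) j τ]
    _ = 2 * 1 * lam ^ 1 * (Real.exp ((-(Pp (j + 1 + 1)) + 5576 / 100000) * lam)
          * Real.exp ((Pn (j + 1) - Pp (j + 1 + 1)) * lam))
          * (L (n + 1 + j) * nb lam C x n j τ) := by ring
    _ ≤ 2 * N * lam ^ 1 * (Real.exp ((-(Pp (j + 1 + 1)) + 5576 / 100000) * lam)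
          * Real.exp ((Pn (j + 1) - Pp (j + 1 + 1)) * lam))
          * (L (n + 1 + j) * nb lam C x n j τ) := by
        gcongr
    _ = _ := by rw [e2]

/-- the backward term is negligible -/
lemma bk_le (H : BH κ lam N Q η L C ℓ B T x w f n σ t1 t) {τ : ℝ} (hτ : τ ∈ Icc (σ n) t)
    (b : B1 κ lam C x w n τ) (j : ℕ) :
    C (n + 2 + j) * L (n + 2 + j) * |x (n + 2 + j + 1) τ| ≤ 1 / 10 ^ 10 * L (n + 1 + j) := by
  have h1 := H.g.q.C_small (n + 2 + j)
  have h2 := H.g.q.Cp (n + 2 + j)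
  have h3 : |x (n + 2 + (j + 1)) τ| ≤ bb lam C x n (j + 1) τ :=
    (H.g.x_le (tI H hτ) _).trans (b.2 (j + 1)).1
  rw [← add_assoc] at h3
  have h4 := lam_bb H hτ (j + 1)
  have h5 := H.g.q.Lp (n + 1 + j)
  have hl := H.g.q.lamp
  have hb := bb_pos lam C x n (j + 1) τ
  rw [Lm H.g.q n j]
  calc C (n + 2 + j) * (lam * L (n + 1 + j)) * |x (n + 2 + j + 1) τ|
      ≤ 1 / 10 ^ 20 * (lam * L (n + 1 + j)) * bb lam C x n (j + 1) τ := by gcongr
    _ = 1 / 10 ^ 20 * (lam * bb lam C x n (j + 1) τ) * L (n + 1 + j) := by ring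
    _ ≤ 1 / 10 ^ 20 * (1 / 10 ^ 20) * L (n + 1 + j) := by gcongr
    _ ≤ _ := by gcongr; norm_num

/-- the rate -/
lemma rate (H : BH κ lam N Q η L C ℓ B T x w f n σ t1 t) {τ θ : ℝ} (hτ : τ ∈ Icc (σ n) t)
    (b : B1 κ lam C x w n τ)
    (hθ : L (n + 1) * (zz C x n τ * max (zz C x n τ - 8952 / 10000) 0) ≤ θ) (j : ℕ) :
    C (n + 2 + j) * L (n + 2 + j) * |x (n + 2 + j + 1) τ| + 1001 / 1000 * Ut L x (n + 2 + j) τ
      - ℓ (n + 2 + j) ≤ θ - 1 / 10 ^ 4 * L (n + 1 + j) := by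
  have h1 := bk_le H hτ b j
  have hz := zz_pos H hτ
  have hm0 : 0 ≤ max (zz C x n τ - 8952 / 10000) 0 := le_max_right _ _
  have hℓ : 8999 / 10000 * L (n + 1 + j) ≤ ℓ (n + 2 + j) := by
    rw [show n + 2 + j = n + 1 + j + 1 by ring]
    exact H.g.q.ℓs_lo _
  rcases j with _ | i
  · have h2 := U_le0 H hτ b
    rw [add_zero] at h1 ⊢
    rw [add_zero]
    have hL := H.g.q.Lp (n + 1)
    set z := zz C x n τ with hzd
    set mm := max (z - 8952 / 10000) 0 with hmm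
    have hm1 : z - 8952 / 10000 ≤ mm := le_max_left _ _
    have key : 1 / 10 ^ 10 + 1001 / 1000 * (z + 1 / 10 ^ 20) - 8999 / 10000 + 1 / 10 ^ 4
        ≤ z * mm := by
      have h3 : z * (z - 8952 / 10000) ≤ z * mm := mul_le_mul_of_nonneg_left hm1 hz.le
      nlinarith [sq_nonneg (z - 9481 / 10000)]
    have h4 : L (n + 1) * (1 / 10 ^ 10 + 1001 / 1000 * (z + 1 / 10 ^ 20) - 8999 / 10000
          + 1 / 10 ^ 4)
        ≤ L (n + 1) * (z * mm) := by gcongr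
    rw [add_zero] at *
    linarith
  · have h2 := U_leS H hτ b i
    have hL := H.g.q.Lp (n + 1 + (i + 1))
    have hL0 := H.g.q.Lp (n + 1)
    have h3 : 0 ≤ L (n + 1) * (zz C x n τ * max (zz C x n τ - 8952 / 10000) 0) := by positivity
    have e : L (n + 2 + i) = L (n + 1 + (i + 1)) := by congr 1; ring
    rw [e] at h2
    linarith

/-- the bounds of `B1` from the hypotheses of `S_BAR2` -/
lemma b1 (H : BH κ lam N Q η L C ℓ B T x w f n σ t1 t)
    (hb : ∀ τ ∈ Icc (σ n) t, ∀ j : ℕ, √(Yk κ x w (n + 2 + j) τ) ≤ bb lam C x n j τ)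
    (hw : ∀ τ ∈ Icc (σ n) t, ∀ p, w p τ ≤ 2 * η * bh lam C x n p τ)
    {τ : ℝ} (hτ : τ ∈ Icc (σ n) t) : B1 κ lam C x w n τ := by
  have hη := H.g.η_dd2
  refine ⟨?_, fun j => ⟨hb τ hτ j, ?_⟩⟩
  · have h1 := hw τ hτ (n + 1)
    rw [bh_low le_rfl, mul_one] at h1
    exact h1.trans hη
  · have h1 := hw τ hτ (n + 2 + j)
    rw [bh_tail] at h1
    refine h1.trans ?_
    have := bb_pos lam C x n j τ
    gcongr

/-- the barriers for the negative parts of the modes -/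
theorem t_BAR2 : S_BAR2 := by
  intro κ lam N Q η L C ℓ B T x w f n σ t1 t H hb hw τ0 hτ0 j
  have hl := H.g.q.lamp
  have hsub : Icc (σ n) τ0 ⊆ Icc (σ n) t := Icc_subset_Icc_right hτ0.2
  have hsubo : Ioo (σ n) τ0 ⊆ Ioo (σ n) t := Ioo_subset_Ioo_right hτ0.2
  have key := bar (φ := fun τ => -(x (n + 2 + j) τ))
    (φ' := fun τ => -(vfk κ L C ℓ B (fun k => x k τ) (n + 2 + j) + f (n + 2 + j) τ))
    (th := th lam C x n) (th' := fun τ => deriv (th lam C x n) τ) (a := σ n) (b := τ0)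
    (K := Real.exp (-(Pn (j + 1)) * lam)) hτ0.1 (by positivity)
    (((H.g.cont (n + 2 + j)).mono fun τ hτ => tI H (hsub hτ)).neg)
    ((th_cont H).mono hsub)
    (fun τ hτ => (H.g.derivAt (n + 2 + j) (tI0 H (hsubo hτ))).fun_neg)
    (fun τ hτ => by
      obtain ⟨θ, h1, _⟩ := th_deriv H (hsubo hτ)
      rw [h1.deriv]; exact h1)
    (fun τ hτ hlt => by
      have hτ' : τ ∈ Icc (σ n) t := hsub ⟨hτ.1.le, hτ.2.le⟩
      obtain ⟨θ, h1, h2⟩ := th_deriv H (hsubo hτ)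
      rw [h1.deriv]
      have b : B1 κ lam C x w n τ := b1 H hb hw hτ'
      have hnb := nb_pos lam C x n j τ
      have hlt' : nb lam C x n j τ < -(x (n + 2 + j) τ) := hlt
      have hneg : x (n + 2 + j) τ ≤ 0 := by linarith
      have h3 := vf_ge_neg' H.g (tI H hτ') (n + 2 + j) hneg
      have h4 := rate H hτ' b h2 j
      have h6 := qd_le H hτ' b j
      have h7 := fb_le H hτ' b j
      have hL := H.g.q.Lp (n + 1 + j)
      set φ := -(x (n + 2 + j) τ) with hφ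
      have habs : |x (n + 2 + j) τ| = φ := abs_of_nonpos hneg
      rw [habs] at h3
      have hφ0 : 0 < φ := hnb.trans hlt'
      have h8 : L (n + 1 + j) * nb lam C x n j τ ≤ L (n + 1 + j) * φ := by gcongr
      have h9 : (C (n + 2 + j) * L (n + 2 + j) * |x (n + 2 + j + 1) τ|
          + 1001 / 1000 * Ut L x (n + 2 + j) τ - ℓ (n + 2 + j)) * φ
          ≤ (θ - 1 / 10 ^ 4 * L (n + 1 + j)) * φ := by
        gcongr
      have h12 : 0 < L (n + 1 + j) * φ := mul_pos hL hφ0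
      show -(vfk κ L C ℓ B (fun k => x k τ) (n + 2 + j) + f (n + 2 + j) τ) ≤ φ * θ
      linarith)
    (by
      have h1 := H.h.ng (j + 1)
      rw [show n + 1 + (j + 1) = n + 2 + j by ring] at h1
      have h2 := th_nonneg H.g.q x n (σ n)
      show -(x (n + 2 + j) (σ n)) ≤ Real.exp (-(Pn (j + 1)) * lam) * Real.exp (th lam C x n (σ n))
      have h3 := Real.one_le_exp h2
      have h4 := Real.exp_pos (-(Pn (j + 1)) * lam)
      nlinarith)
  have h1 : -(x (n + 2 + j) τ0) ≤ Real.exp (-(Pn (j + 1)) * lam) * Real.exp (th lam C x n τ0) :=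
    key
  unfold nb
  linarith

end Pool.Agent.Y108.SK
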